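import Pool.Agent.L0h7.RG.Stm

/-!
# Project RG: induced modules (module IND; helper33)
-/

set_option autoImplicit false
set_option linter.all false

noncomputable section

namespace Pool.Agent.L0h33.RG

open Pool.Agent.Y75.NK
open Pool.Agent.L0h7.RG

section ind

variable {A F : Type} [Ring A] [Group F]

/-- induction over the induced module -/
theorem ind_induction {N : Type} [AddCommGroup N] {motive : Ind F N → Prop} (z : Ind F N)
    (h0 : motive 0) (hadd : ∀ y z, motive y → motive z → motive (y + z))
    (hten : ∀ w x, motive (ten w x)) : motive z :=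
  Finsupp.induction_linear (motive := motive) z h0 (fun y z => hadd y z) hten

/-- the value at `w` -/
def ev {N : Type} [AddCommGroup N] (w : F) : Ind F N →+ N :=
  (Finsupp.applyAddHom w : (F →₀ N) →+ N)

theorem ev_ext {N : Type} [AddCommGroup N] {z z' : Ind F N} (h : ∀ w, ev w z = ev w z') :
    z = z' := Finsupp.ext h

theorem ev_ten {N : Type} [AddCommGroup N] [DecidableEq F] (w v : F) (x : N) :
    ev w (ten v x) = if v = w then x else 0 := Finsupp.single_apply

/-- an element with given values -/
def mkf {N : Type} [AddCommGroup N] (s : Finset F) (f : F → N) (h : ∀ w, f w ≠ 0 → w ∈ s) :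
    Ind F N := Finsupp.onFinset s f h

theorem ev_mkf {N : Type} [AddCommGroup N] (s : Finset F) (f : F → N)
    (h : ∀ w, f w ≠ 0 → w ∈ s) (w : F) : ev w (mkf s f h) = f w := rfl

theorem exists_supp {N : Type} [AddCommGroup N] (z : Ind F N) :
    ∃ s : Finset F, ∀ w, ev w z ≠ 0 → w ∈ s :=
  ⟨Finsupp.support z, fun w hw => Finsupp.mem_support_iff.mpr hw⟩

/-- additive maps which are compatible with the action are linear -/
def mkLin {N X : Type} [AddCommGroup N] [Module A N] [AddCommGroup X]
    [Module (MonoidAlgebra A F) X] (f : Ind F N →+ X)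
    (h : ∀ (u v : F) (a : A) (x : N), f (ten (u * v) (a • x)) =
      (MonoidAlgebra.single u a : MonoidAlgebra A F) • f (ten v x)) :
    Ind F N →ₗ[MonoidAlgebra A F] X where
  toFun := f
  map_add' := f.map_add
  map_smul' r z := by
    rw [RingHom.id_apply]
    induction r using MonoidAlgebra.induction_linear with
    | zero => rw [zero_smul, zero_smul, map_zero]
    | add r s hr hs => rw [add_smul, map_add, hr, hs, add_smul]
    | single u a =>
      induction z using ind_induction with
      | h0 => rw [smul_zero, map_zero, smul_zero]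
      | hadd y z hy hz => rw [smul_add, map_add, map_add, hy, hz, smul_add]
      | hten v x => rw [single_smul_ten, h]

theorem mkLin_apply {N X : Type} [AddCommGroup N] [Module A N] [AddCommGroup X]
    [Module (MonoidAlgebra A F) X] (f : Ind F N →+ X)
    (h : ∀ (u v : F) (a : A) (x : N), f (ten (u * v) (a • x)) =
      (MonoidAlgebra.single u a : MonoidAlgebra A F) • f (ten v x)) (z : Ind F N) :
    mkLin f h z = f z := rfl

/-- linear maps which agree on the elements `w ⊗ x` -/
theorem lin_ext {N X : Type} [AddCommGroup N] [Module A N] [AddCommGroup X]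
    [Module (MonoidAlgebra A F) X] {f g : Ind F N →ₗ[MonoidAlgebra A F] X}
    (h : ∀ w x, f (ten w x) = g (ten w x)) : f = g := by
  apply LinearMap.ext
  intro z
  induction z using ind_induction with
  | h0 => rw [map_zero, map_zero]
  | hadd y z hy hz => rw [map_add, map_add, hy, hz]
  | hten v x => exact h v x

/-- the universal property -/
theorem ind4 (N : Type) [AddCommGroup N] [Module A N] (X : Type)
    [AddCommGroup X] [Module (MonoidAlgebra A F) X] (h : N →+ X)
    (hh : ∀ (a : A) (x : N), h (a • x) = io A F a • h x) :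
    ∃ g : Ind F N →ₗ[MonoidAlgebra A F] X, ∀ (w : F) (x : N),
      g (ten w x) = (MonoidAlgebra.single w 1 : MonoidAlgebra A F) • h x := by
  let f : Ind F N →+ X := (Finsupp.liftAddHom (fun w : F =>
    (DistribSMul.toAddMonoidHom X (MonoidAlgebra.single w 1 : MonoidAlgebra A F)).comp h) :
      (F →₀ N) →+ X)
  have hf : ∀ (w : F) (x : N), f (ten w x) =
      (MonoidAlgebra.single w 1 : MonoidAlgebra A F) • h x := by
    intro w x
    exact Finsupp.liftAddHom_apply_single _ _ _
  refine ⟨mkLin f ?_, fun w x => hf w x⟩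
  intro u v a x
  rw [hf, hf, hh, smul_smul, smul_smul]
  congr 1
  change MonoidAlgebra.single (u * v) 1 * MonoidAlgebra.single 1 a = _
  rw [MonoidAlgebra.single_mul_single, MonoidAlgebra.single_mul_single]
  simp

variable {N N' N'' : Type} [AddCommGroup N] [Module A N] [AddCommGroup N'] [Module A N']
  [AddCommGroup N''] [Module A N'']

theorem mapRange_ten (f : N →ₗ[A] N') (w : F) (y : N) :
    (Finsupp.mapRange.addMonoidHom f.toAddMonoidHom : (F →₀ N) →+ (F →₀ N')) (ten w y) =
      (ten w (f y) : Ind F N') :=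
  Finsupp.mapRange_single (hf := map_zero f.toAddMonoidHom)

variable (F) in
/-- the induced map, additive -/
def imapA (f : N →ₗ[A] N') : Ind F N →+ Ind F N' :=
  (Finsupp.mapRange.addMonoidHom f.toAddMonoidHom : (F →₀ N) →+ (F →₀ N'))

theorem imapA_ten (f : N →ₗ[A] N') (w : F) (y : N) : imapA F f (ten w y) = ten w (f y) :=
  mapRange_ten f w y

variable (F) in
/-- the induced map -/
def imap (f : N →ₗ[A] N') : Ind F N →ₗ[MonoidAlgebra A F] Ind F N' :=
  mkLin (imapA F f) (by
    intro u v a x
    rw [imapA_ten, imapA_ten, map_smul, single_smul_ten])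

theorem ev_imap (f : N →ₗ[A] N') (z : Ind F N) (w : F) :
    ev w (imap F f z) = f (ev w z) := rfl

theorem imap_ten (f : N →ₗ[A] N') (w : F) (x : N) : imap F f (ten w x) = ten w (f x) :=
  imapA_ten f w x

theorem imap_comp (g : N' →ₗ[A] N'') (f : N →ₗ[A] N') :
    imap F (g.comp f) = (imap F g).comp (imap F f) := by
  apply lin_ext
  intro w x
  rw [LinearMap.comp_apply, imap_ten, imap_ten, imap_ten, LinearMap.comp_apply]

theorem imap_id : imap F (LinearMap.id : N →ₗ[A] N) = LinearMap.id := by
  apply lin_ext
  intro w x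
  rw [imap_ten]
  rfl

theorem imap_inj {f : N →ₗ[A] N'} (h : Function.Injective f) : Function.Injective (imap F f) := by
  intro z z' hz
  refine ev_ext fun w => ?_
  apply h
  rw [← ev_imap, ← ev_imap, hz]

theorem imap_surj {f : N →ₗ[A] N'} (h : Function.Surjective f) :
    Function.Surjective (imap F f) := by
  intro z
  induction z using ind_induction with
  | h0 => exact ⟨0, map_zero _⟩
  | hadd y z hy hz =>
    obtain ⟨y', hy⟩ := hy
    obtain ⟨z', hz⟩ := hz
    refine ⟨y' + z', ?_⟩
    rw [map_add, hy, hz]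
  | hten v x =>
    obtain ⟨y, rfl⟩ := h x
    exact ⟨ten v y, imap_ten f v y⟩

variable (F) in
/-- isomorphic modules -/
def icongr (e : N ≃ₗ[A] N') : Ind F N ≃ₗ[MonoidAlgebra A F] Ind F N' :=
  LinearEquiv.ofBijective (imap F e.toLinearMap) ⟨imap_inj e.injective, imap_surj e.surjective⟩

/-- the kernel of the induced map -/
theorem iker (f : N →ₗ[A] N') :
    Nonempty (LinearMap.ker (imap F f) ≃ₗ[MonoidAlgebra A F] Ind F (LinearMap.ker f)) := by
  have h1 : LinearMap.range (imap F (LinearMap.ker f).subtype) = LinearMap.ker (imap F f) := by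
    ext z
    rw [LinearMap.mem_range, LinearMap.mem_ker]
    constructor
    · rintro ⟨y, rfl⟩
      rw [← LinearMap.comp_apply, ← imap_comp]
      have h2 : f.comp (LinearMap.ker f).subtype = 0 := by
        apply LinearMap.ext
        intro x
        exact x.2
      rw [h2]
      refine ev_ext fun w => ?_
      rw [ev_imap, map_zero]
      rfl
    · intro hz
      have hz' : ∀ w, f (ev w z) = 0 := by
        intro w
        rw [← ev_imap, hz, map_zero]
      obtain ⟨s, hs⟩ := exists_supp z
      refine ⟨mkf s (fun w => (⟨ev w z, hz' w⟩ : LinearMap.ker f)) ?_, ?_⟩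
      · intro w hw
        apply hs
        intro h0
        apply hw
        exact Subtype.ext h0
      · refine ev_ext fun w => ?_
        rw [ev_imap, ev_mkf]
        rfl
  exact ⟨((LinearEquiv.ofInjective _ (imap_inj (F := F)
    (Submodule.subtype_injective (LinearMap.ker f)))).trans (LinearEquiv.ofEq _ _ h1)).symm⟩

/-- the image of the induced map -/
theorem irange (f : N →ₗ[A] N') :
    Nonempty (Ind F (LinearMap.range f) ≃ₗ[MonoidAlgebra A F] LinearMap.range (imap F f)) := by
  have h1 : LinearMap.range (imap F (LinearMap.range f).subtype) =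
      LinearMap.range (imap F f) := by
    have h2 : imap F f = (imap F (LinearMap.range f).subtype).comp (imap F f.rangeRestrict) := by
      rw [← imap_comp]
      congr 1
    conv_rhs => rw [h2]
    rw [LinearMap.range_comp, LinearMap.range_eq_top.mpr
      (imap_surj (F := F) f.surjective_rangeRestrict), Submodule.map_top]
  exact ⟨(LinearEquiv.ofInjective _ (imap_inj (F := F)
    (Submodule.subtype_injective (LinearMap.range f)))).trans (LinearEquiv.ofEq _ _ h1)⟩

variable (A F) in
/-- coordinates -/
def psiA (k : ℕ) : Ind F (Fin k → A) →+ (Fin k → MonoidAlgebra A F) :=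
  Finsupp.liftAddHom (fun w : F => AddMonoidHom.mk'
    (fun x : Fin k → A => fun i => (MonoidAlgebra.single w (x i) : MonoidAlgebra A F))
    (by
      intro x y
      funext i
      exact MonoidAlgebra.single_add _ _ _))

theorem psiA_ten (k : ℕ) (w : F) (x : Fin k → A) :
    psiA A F k (ten w x) = fun i => (MonoidAlgebra.single w (x i) : MonoidAlgebra A F) :=
  Finsupp.liftAddHom_apply_single _ _ _

variable (A F) in
/-- coordinates -/
def psi (k : ℕ) : Ind F (Fin k → A) →ₗ[MonoidAlgebra A F] (Fin k → MonoidAlgebra A F) :=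
  mkLin (psiA A F k) (by
    intro u v a x
    rw [psiA_ten, psiA_ten]
    funext i
    change _ = MonoidAlgebra.single u a * MonoidAlgebra.single v (x i)
    rw [MonoidAlgebra.single_mul_single]
    rfl)

theorem psi_ten (k : ℕ) (w : F) (x : Fin k → A) :
    psi A F k (ten w x) = fun i => (MonoidAlgebra.single w (x i) : MonoidAlgebra A F) :=
  psiA_ten k w x

theorem psi_coeff (k : ℕ) (z : Ind F (Fin k → A)) (i : Fin k) (w : F) :
    (psi A F k z i).coeff w = ev w z i := by
  classical
  induction z using ind_induction with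
  | h0 =>
    rw [map_zero, map_zero]
    rfl
  | hadd y z hy hz =>
    rw [map_add, map_add, Pi.add_apply, MonoidAlgebra.coeff_add, Finsupp.add_apply, hy, hz]
    rfl
  | hten v x =>
    rw [psi_ten, MonoidAlgebra.coeff_single, Finsupp.single_apply, ev_ten]
    split_ifs <;> rfl

theorem psi_bij (k : ℕ) : Function.Bijective (psi A F k) := by
  classical
  constructor
  · intro z z' h
    refine ev_ext fun w => ?_
    funext i
    rw [← psi_coeff, ← psi_coeff, h]
  · intro r
    refine ⟨mkf (Finset.univ.biUnion fun i => (r i).coeff.support)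
      (fun w => fun i => (r i).coeff w) ?_, ?_⟩
    · intro w hw
      rw [Finset.mem_biUnion]
      by_contra hcon
      apply hw
      funext i
      by_contra h1
      exact hcon ⟨i, Finset.mem_univ i, Finsupp.mem_support_iff.mpr h1⟩
    · funext i
      apply MonoidAlgebra.ext
      apply Finsupp.ext
      intro w
      rw [psi_coeff, ev_mkf]

variable (A F) in
/-- coordinates -/
def psiE (k : ℕ) : Ind F (Fin k → A) ≃ₗ[MonoidAlgebra A F] (Fin k → MonoidAlgebra A F) :=
  LinearEquiv.ofBijective (psi A F k) (psi_bij k)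

/-- matrices -/
theorem psi_mat {n m : ℕ} (e : Matrix (Fin n) (Fin m) A) :
    (psi A F m).comp (imap F e.vecMulLinear) = (e.map (io A F)).vecMulLinear.comp (psi A F n) := by
  apply lin_ext
  intro w x
  rw [LinearMap.comp_apply, LinearMap.comp_apply, imap_ten, psi_ten, psi_ten]
  funext i
  change (MonoidAlgebra.single w ((Matrix.vecMul x e) i) : MonoidAlgebra A F) =
    Matrix.vecMul (fun i => (MonoidAlgebra.single w (x i) : MonoidAlgebra A F))
      (e.map (io A F)) i
  simp only [Matrix.vecMul, dotProduct, Matrix.map_apply]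
  have h1 : ∀ j, (MonoidAlgebra.single w (x j) : MonoidAlgebra A F) * io A F (e j i) =
      MonoidAlgebra.single w (x j * e j i) := by
    intro j
    change MonoidAlgebra.single w (x j) * MonoidAlgebra.single 1 (e j i) = _
    rw [MonoidAlgebra.single_mul_single, mul_one]
  simp only [h1]
  exact map_sum (MonoidAlgebra.singleAddHom w) _ _

/-- the image of an idempotent matrix -/
theorem W_ind (e : Idem A) :
    Nonempty (Ind F (W e) ≃ₗ[MonoidAlgebra A F] W (e.map (io A F))) := by
  obtain ⟨α⟩ := irange (F := F) e.e.vecMulLinear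
  have h1 : Submodule.map (psiE A F e.n).toLinearMap (LinearMap.range (imap F e.e.vecMulLinear)) =
      W (e.map (io A F)) := by
    have h2 : (psiE A F e.n).toLinearMap = psi A F e.n := rfl
    rw [h2, ← LinearMap.range_comp, psi_mat, LinearMap.range_comp,
      LinearMap.range_eq_top.mpr (psi_bij e.n).2, Submodule.map_top]
    rfl
  exact ⟨(α.trans ((psiE A F e.n).submoduleMap _)).trans (LinearEquiv.ofEq _ _ h1)⟩

/-- the resolution of the induced module -/
theorem step (k : ℕ) (π : (Fin k → A) →ₗ[A] N) (hπ : Function.Surjective π) :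
    ∃ π' : (Fin k → MonoidAlgebra A F) →ₗ[MonoidAlgebra A F] Ind F N, Function.Surjective π' ∧
      Nonempty (LinearMap.ker π' ≃ₗ[MonoidAlgebra A F] Ind F (LinearMap.ker π)) := by
  refine ⟨(imap F π).comp (psiE A F k).symm.toLinearMap,
    (imap_surj hπ).comp (psiE A F k).symm.surjective, ?_⟩
  obtain ⟨α⟩ := iker (F := F) π
  have h1 : LinearMap.ker ((imap F π).comp (psiE A F k).symm.toLinearMap) =
      Submodule.map (psiE A F k).toLinearMap (LinearMap.ker (imap F π)) := by
    ext v
    rw [LinearMap.mem_ker, Submodule.mem_map]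
    constructor
    · intro hv
      exact ⟨(psiE A F k).symm v, hv, (psiE A F k).apply_symm_apply v⟩
    · rintro ⟨y, hy, rfl⟩
      change imap F π ((psiE A F k).symm (psiE A F k y)) = 0
      rw [LinearEquiv.symm_apply_apply]
      exact hy
  exact ⟨((LinearEquiv.ofEq _ _ h1).trans ((psiE A F k).submoduleMap _).symm).trans α⟩

end ind

/-- isomorphic modules have the same resolutions -/
theorem PD_equiv {A : Type} [Ring A] {n : ℕ} {M N : Type} [AddCommGroup M] [Module A M]
    [AddCommGroup N] [Module A N] (e : M ≃ₗ[A] N) (h : PD A n M) : PD A n N := by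
  cases n with
  | zero =>
    obtain ⟨h1, h2⟩ := h
    exact ⟨Module.Finite.equiv e, Module.Projective.of_equiv e⟩
  | succ n =>
    obtain ⟨k, π, h1, h2⟩ := h
    refine ⟨k, e.toLinearMap.comp π, e.surjective.comp h1, ?_⟩
    rw [LinearEquiv.ker_comp]
    exact h2

theorem EC_equiv {A : Type} [Ring A] {n : ℕ} {M N : Type} [AddCommGroup M] [Module A M]
    [AddCommGroup N] [Module A N] {c : K0 A} (e : M ≃ₗ[A] N) (h : EC A n M c) : EC A n N c := by
  cases n with
  | zero =>
    obtain ⟨f, ⟨α⟩, h2⟩ := h
    exact ⟨f, ⟨e.symm.trans α⟩, h2⟩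
  | succ n =>
    obtain ⟨k, π, c', h1, h2, h3⟩ := h
    refine ⟨k, e.toLinearMap.comp π, c', e.surjective.comp h1, ?_, h3⟩
    rw [LinearEquiv.ker_comp]
    exact h2

theorem ind3 {A F : Type} [Ring A] [Group F] (N : Type) [AddCommGroup N] [Module A N]
    (h : Module.Finite A N) : Module.Finite (MonoidAlgebra A F) (Ind F N) := by
  obtain ⟨k, π, hπ⟩ := Module.Finite.exists_fin' A N
  obtain ⟨π', h1, -⟩ := step (F := F) k π hπ
  exact Module.Finite.of_surjective π' h1

theorem ind1 {A F : Type} [Ring A] [Group F] (n : ℕ) (N : Type) [AddCommGroup N] [Module A N]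
    (h : PD A n N) : PD (MonoidAlgebra A F) n (Ind F N) := by
  induction n generalizing N with
  | zero =>
    obtain ⟨h1, h2⟩ := h
    refine ⟨ind3 N h1, ?_⟩
    obtain ⟨k, π, hπ⟩ := Module.Finite.exists_fin' A N
    obtain ⟨s, hs⟩ := Module.projective_lifting_property π LinearMap.id hπ
    have h3 : Module.Projective (MonoidAlgebra A F) (Ind F (Fin k → A)) :=
      Module.Projective.of_equiv (psiE A F k).symm
    refine Module.Projective.of_split (imap F s) (imap F π) ?_
    rw [← imap_comp, hs, imap_id]
  | succ n ih =>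
    obtain ⟨k, π, h1, h2⟩ := h
    obtain ⟨π', h3, ⟨α⟩⟩ := step (F := F) k π h1
    exact ⟨k, π', h3, PD_equiv α.symm (ih _ h2)⟩

theorem fr_map (A F : Type) [Ring A] [Group F] (k : ℕ) :
    (fr A k).map (io A F) = fr (MonoidAlgebra A F) k := by
  unfold Idem.map fr
  congr 1
  exact Matrix.map_one _ (map_zero _) (map_one _)

theorem ind2 {A F : Type} [Ring A] [Group F] (n : ℕ) (N : Type) [AddCommGroup N] [Module A N]
    (c : K0 A) (h : EC A n N c) :
    EC (MonoidAlgebra A F) n (Ind F N) (K0.map (io A F) c) := by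
  induction n generalizing N c with
  | zero =>
    obtain ⟨e, ⟨α⟩, rfl⟩ := h
    obtain ⟨β⟩ := W_ind (F := F) e
    exact ⟨e.map (io A F), ⟨(icongr F α).trans β⟩, K0.map_cls _ _⟩
  | succ n ih =>
    obtain ⟨k, π, c', h1, h2, rfl⟩ := h
    obtain ⟨π', h3, ⟨α⟩⟩ := step (F := F) k π h1
    refine ⟨k, π', K0.map (io A F) c', h3, EC_equiv α.symm (ih _ _ h2), ?_⟩
    rw [map_sub, K0.map_cls, fr_map]

/-- **IND** -/
theorem t_IND : S_IND :=
  ⟨fun A F _ _ n N _ _ h => ind1 n N h, fun A F _ _ n N _ _ c h => ind2 n N c h,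
    fun A F _ _ N _ _ h => ind3 N h, fun A F _ _ N _ _ X _ _ h hh => ind4 N X h hh⟩

end Pool.Agent.L0h33.RG
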