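import Pool.Agent.L0h7.RG.Stm

/-!
# Project RG: Hilbert's basis theorem for noncommutative coefficients (module NOE; helper33)
-/

set_option autoImplicit false
set_option linter.all false

noncomputable section

namespace Pool.Agent.L0h33.RG

open Polynomial
open scoped LaurentPolynomial

section poly

variable {A : Type} [Ring A]

/-- the coefficients from `k` on are zero -/
def Lo (k : ℕ) (p : A[X]) : Prop := ∀ i, k ≤ i → p.coeff i = 0

/-- the coefficients of degree `n` of the polynomials of degree at most `n` in `J` -/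
def lead (J : Ideal A[X]) (n : ℕ) : Ideal A where
  carrier := {a | ∃ p ∈ J, Lo (n + 1) p ∧ p.coeff n = a}
  add_mem' := by
    rintro a b ⟨p, hp, hp1, hp2⟩ ⟨q, hq, hq1, hq2⟩
    refine ⟨p + q, J.add_mem hp hq, fun i hi => ?_, ?_⟩
    · rw [coeff_add, hp1 i hi, hq1 i hi, add_zero]
    · rw [coeff_add, hp2, hq2]
  zero_mem' := ⟨0, J.zero_mem, fun i _ => coeff_zero i, coeff_zero n⟩
  smul_mem' := by
    rintro c a ⟨p, hp, hp1, hp2⟩
    refine ⟨C c * p, J.mul_mem_left _ hp, fun i hi => ?_, ?_⟩
    · rw [coeff_C_mul, hp1 i hi, mul_zero]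
    · rw [coeff_C_mul, hp2, smul_eq_mul]

theorem lead_succ (J : Ideal A[X]) (n : ℕ) : lead J n ≤ lead J (n + 1) := by
  rintro a ⟨p, hp, hp1, hp2⟩
  refine ⟨X * p, J.mul_mem_left _ hp, fun i hi => ?_, ?_⟩
  · obtain ⟨j, rfl⟩ : ∃ j, i = j + 1 := ⟨i - 1, by omega⟩
    rw [coeff_X_mul]
    exact hp1 j (by omega)
  · rw [coeff_X_mul, hp2]

/-- finitely many polynomials have the same leading coefficients -/
theorem exists_fg (hA : IsNoetherianRing A) (J : Ideal A[X]) (n : ℕ) :
    ∃ K : Ideal A[X], K.FG ∧ K ≤ J ∧ lead J n ≤ lead K n := by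
  obtain ⟨s, hs⟩ := (isNoetherianRing_iff_ideal_fg A).mp hA (lead J n)
  have h1 : ∀ a ∈ s, ∃ p ∈ J, Lo (n + 1) p ∧ p.coeff n = a := by
    intro a ha
    have h2 : a ∈ lead J n := by
      rw [← hs]
      exact Submodule.subset_span ha
    exact h2
  choose! g hg1 hg2 hg3 using h1
  classical
  refine ⟨Submodule.span A[X] (s.image g : Set A[X]), ⟨s.image g, rfl⟩, ?_, ?_⟩
  · rw [Submodule.span_le]
    intro p hp
    rw [Finset.mem_coe, Finset.mem_image] at hp
    obtain ⟨a, ha, rfl⟩ := hp
    exact hg1 a ha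
  · rw [← hs, Submodule.span_le]
    intro a ha
    refine ⟨g a, Submodule.subset_span ?_, hg2 a ha, hg3 a ha⟩
    rw [Finset.mem_coe, Finset.mem_image]
    exact ⟨a, ha, rfl⟩

/-- **Hilbert's basis theorem** -/
theorem noeth_poly (hA : IsNoetherianRing A) : IsNoetherianRing A[X] := by
  rw [isNoetherianRing_iff_ideal_fg]
  intro J
  obtain ⟨N, hN⟩ := monotone_stabilizes_iff_noetherian.mpr hA
    ⟨lead J, monotone_nat_of_le_succ (lead_succ J)⟩
  choose K hK1 hK2 hK3 using exists_fg hA J
  have hfg : (⨆ n ∈ Finset.range (N + 1), K n).FG :=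
    Submodule.fg_biSup _ _ fun n _ => hK1 n
  have hle : (⨆ n ∈ Finset.range (N + 1), K n) ≤ J := iSup₂_le fun n _ => hK2 n
  have hsub : ∀ n, n ≤ N → K n ≤ ⨆ n ∈ Finset.range (N + 1), K n := fun n hn =>
    le_iSup₂_of_le n (Finset.mem_range.mpr (by omega)) le_rfl
  have key : ∀ k, ∀ p ∈ J, Lo k p → p ∈ ⨆ n ∈ Finset.range (N + 1), K n := by
    intro k
    induction k with
    | zero =>
      intro p _ hp
      have : p = 0 := Polynomial.ext fun i => by rw [hp i (Nat.zero_le i), coeff_zero]
      rw [this]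
      exact Submodule.zero_mem _
    | succ k ih =>
      intro p hpJ hp
      obtain ⟨q, hq, hq1, hq2⟩ : ∃ q ∈ ⨆ n ∈ Finset.range (N + 1), K n, Lo (k + 1) q ∧
          q.coeff k = p.coeff k := by
        have hmem : p.coeff k ∈ lead J k := ⟨p, hpJ, hp, rfl⟩
        rcases le_or_gt k N with hk | hk
        · obtain ⟨q, hq, hq1, hq2⟩ := hK3 k hmem
          exact ⟨q, hsub k hk hq, hq1, hq2⟩
        · have h1 : lead J N = lead J k := hN k hk.le
          rw [← h1] at hmem
          obtain ⟨q, hq, hq1, hq2⟩ := hK3 N hmem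
          refine ⟨X ^ (k - N) * q, Ideal.mul_mem_left _ _ (hsub N le_rfl hq), fun i hi => ?_, ?_⟩
          · obtain ⟨j, rfl⟩ : ∃ j, i = j + (k - N) := ⟨i - (k - N), by omega⟩
            rw [coeff_X_pow_mul]
            exact hq1 j (by omega)
          · have h2 : k = N + (k - N) := by omega
            conv_lhs => rw [h2]
            rw [show N + (k - N) - N = k - N by omega, coeff_X_pow_mul, hq2]
      have h3 : p - q ∈ ⨆ n ∈ Finset.range (N + 1), K n := by
        refine ih _ (J.sub_mem hpJ (hle hq)) fun i hi => ?_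
        rw [coeff_sub]
        rcases Nat.eq_or_lt_of_le hi with h | h
        · rw [← h, hq2, sub_self]
        · rw [hp i h, hq1 i h, sub_zero]
      have h4 := Submodule.add_mem _ h3 hq
      rwa [sub_add_cancel] at h4
  have heq : J = ⨆ n ∈ Finset.range (N + 1), K n := by
    refine le_antisymm (fun p hp => key (p.natDegree + 1) p hp fun i hi => ?_) hle
    exact coeff_eq_zero_of_natDegree_lt (by omega)
  rw [heq]
  exact hfg

/-- Laurent polynomials -/
theorem noeth_laurent (hA : IsNoetherianRing A) : IsNoetherianRing A[T;T⁻¹] := by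
  rw [isNoetherianRing_iff_ideal_fg]
  intro J
  have hP := noeth_poly hA
  obtain ⟨s, hs⟩ := (isNoetherianRing_iff_ideal_fg A[X]).mp hP
    (J.comap (toLaurent : A[X] →+* A[T;T⁻¹]))
  classical
  refine ⟨s.image toLaurent, le_antisymm ?_ ?_⟩
  · rw [Submodule.span_le]
    intro p hp
    rw [Finset.mem_coe, Finset.mem_image] at hp
    obtain ⟨a, ha, rfl⟩ := hp
    have h2 : a ∈ J.comap (toLaurent : A[X] →+* A[T;T⁻¹]) := by
      rw [← hs]
      exact Submodule.subset_span ha
    exact h2
  · have hspan : ∀ g ∈ Submodule.span A[X] (s : Set A[X]), (toLaurent g : A[T;T⁻¹]) ∈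
        Submodule.span A[T;T⁻¹] ((s.image toLaurent : Finset A[T;T⁻¹]) : Set A[T;T⁻¹]) := by
      intro g hg
      induction hg using Submodule.span_induction with
      | mem x hx =>
        refine Submodule.subset_span ?_
        rw [Finset.mem_coe, Finset.mem_image]
        exact ⟨x, hx, rfl⟩
      | zero => rw [map_zero]; exact Submodule.zero_mem _
      | add x y _ _ hx hy => rw [map_add]; exact Submodule.add_mem _ hx hy
      | smul a x _ hx =>
        rw [smul_eq_mul, map_mul]
        exact Submodule.smul_mem _ _ hx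
    intro f hf
    obtain ⟨n, g, hg⟩ := LaurentPolynomial.exists_T_pow f
    have h1 : (toLaurent g : A[T;T⁻¹]) = LaurentPolynomial.T n * f := by
      rw [hg]
      exact (LaurentPolynomial.T_mul n f).symm
    have h2 : g ∈ J.comap (toLaurent : A[X] →+* A[T;T⁻¹]) := by
      rw [Ideal.mem_comap, h1]
      exact J.mul_mem_left _ hf
    rw [← hs] at h2
    have h3 : (toLaurent g : A[T;T⁻¹]) ∈
        Submodule.span A[T;T⁻¹] ((s.image toLaurent : Finset A[T;T⁻¹]) : Set A[T;T⁻¹]) := hspan g h2
    have h4 : f = LaurentPolynomial.T (-n) * toLaurent g := by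
      rw [h1, ← mul_assoc, ← LaurentPolynomial.T_add, neg_add_cancel, LaurentPolynomial.T_zero,
        one_mul]
    rw [h4]
    exact Submodule.smul_mem _ _ h3

end poly

open Pool.Agent.L0h7.RG in
/-- **NOE** -/
theorem t_NOE : S_NOE := by
  intro A _ hA
  exact @isNoetherianRing_of_ringEquiv A[T;T⁻¹] _ _ _
    (AddMonoidAlgebra.toMultiplicative A ℤ) (noeth_laurent hA)

end Pool.Agent.L0h33.RG
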